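-- withdrawn (known: Willis, Proc. London Math. Soc. 82 (2001)); kept as a helper file only
import Mathlib
import Pool.Agent.Q164.W2.Codim2

set_option autoImplicit false

namespace Pool.Agent.Q164.WD.CodimTwo

open H937R3 Q164.W2

/-- The Banach algebra `ℓ¹(F_ω)`. -/
abbrev AL : Type := EllOne (FreeGroup ℕ)

instance : CompleteSpace AL :=
  inferInstanceAs (CompleteSpace (lp (fun _ : FreeGroup ℕ => ℂ) 1))

instance : NormOneClass AL := ⟨EllOne.norm_delta (1 : FreeGroup ℕ)⟩

instance : Nontrivial AL := ⟨⟨1, 0, fun h => by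
  have h1 : ‖(1 : AL)‖ = 1 := norm_one
  rw [h, norm_zero] at h1
  exact zero_ne_one h1⟩⟩

/-- the Banach space `ℓ¹(F_ω)` -/
abbrev LP : Type := lp (fun _ : FreeGroup ℕ => ℂ) 1

/-- the element of the algebra -/
def up (x : LP) : AL := x

theorem rep (x : AL) : ∃ c : FreeGroup ℕ → ℂ, Summable (fun g => ‖c g‖) ∧
    HasSum (fun g => c g • (EllOne.delta g : AL)) x := by
  refine ⟨fun g => EllOne.coeff x g, L1.summable_norm (G := FreeGroup ℕ) x, ?_⟩
  have h : HasSum (fun g => lp.single 1 g ((show LP from x) g)) (show LP from x) :=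
    lp.hasSum_single (E := fun _ : FreeGroup ℕ => ℂ) (p := 1) (by norm_num) x
  have e : (fun g : FreeGroup ℕ => EllOne.coeff x g • (EllOne.delta g : AL))
      = fun g => up (lp.single 1 g ((show LP from x) g)) := by
    funext g
    show (show LP from x) g • (lp.single 1 g (1 : ℂ) : LP)
      = (lp.single 1 g ((show LP from x) g) : LP)
    rw [← lp.single_smul]
    simp
  rw [e]
  exact h

theorem mul_iff (a b h : LP) : up h = up a * up b ↔ ∀ x : FreeGroup ℕ,
    h x = ∑' y : FreeGroup ℕ, a y * b (y⁻¹ * x) := by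
  constructor
  · intro hh x
    have h1 : h x = EllOne.coeff (up a * up b) x := by rw [← hh]; rfl
    rw [h1]
    exact EllOne.conv_apply (up a) (up b) x
  · intro hx
    have h1 : ∀ x, h x = (show LP from (up a * up b)) x := fun x => by
      rw [hx x]
      exact (EllOne.conv_apply (up a) (up b) x).symm
    exact lp.ext (funext h1)

/-- In the convolution algebra ℓ¹ of the free group on countably many generators, every closed two-sided ideal of codimension two equals the linear span of products of pairs of its elements. -/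
theorem result :
    ∀ I : Submodule ℂ (lp (fun _ : FreeGroup ℕ => ℂ) 1),
      IsClosed (I : Set (lp (fun _ : FreeGroup ℕ => ℂ) 1)) →
      (∀ f ∈ I, ∀ g h : lp (fun _ : FreeGroup ℕ => ℂ) 1,
        ((∀ x : FreeGroup ℕ, h x = ∑' y : FreeGroup ℕ, f y * g (y⁻¹ * x)) → h ∈ I) ∧
        ((∀ x : FreeGroup ℕ, h x = ∑' y : FreeGroup ℕ, g y * f (y⁻¹ * x)) → h ∈ I)) →
      Module.finrank ℂ ((lp (fun _ : FreeGroup ℕ => ℂ) 1) ⧸ I) = 2 →
      Submodule.span ℂ
        {h : lp (fun _ : FreeGroup ℕ => ℂ) 1 |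
          ∃ a ∈ I, ∃ b ∈ I, ∀ x : FreeGroup ℕ,
            h x = ∑' y : FreeGroup ℕ, a y * b (y⁻¹ * x)} = I := by
  intro I hI hid h2
  have key := idem_codim_two (A := AL) (G := FreeGroup ℕ) (δ := fun g => (EllOne.delta g : AL))
    (fun g => (EllOne.norm_delta g).le) (fun g h => (EllOne.delta_mul_delta g h).symm)
    EllOne.one_def.symm rep I hI
    (fun x hx a => (hid x hx a (show LP from up a * up x)).2 ((mul_iff a x _).1 rfl))
    (fun x hx a => (hid x hx a (show LP from up x * up a)).1 ((mul_iff x a _).1 rfl)) h2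
  have e : {h : lp (fun _ : FreeGroup ℕ => ℂ) 1 |
          ∃ a ∈ I, ∃ b ∈ I, ∀ x : FreeGroup ℕ,
            h x = ∑' y : FreeGroup ℕ, a y * b (y⁻¹ * x)}
      = {h : AL | ∃ a ∈ I, ∃ b ∈ I, h = up a * up b} := by
    ext h
    constructor
    · rintro ⟨a, ha, b, hb, hab⟩
      exact ⟨a, ha, b, hb, (mul_iff a b h).2 hab⟩
    · rintro ⟨a, ha, b, hb, hab⟩
      exact ⟨a, ha, b, hb, (mul_iff a b h).1 hab⟩
  rw [e]
  exact key

end Pool.Agent.Q164.WD.CodimTwo
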