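import Mathlib.Analysis.SpecialFunctions.Log.Summable
import Mathlib.Analysis.SpecialFunctions.Complex.Arg
import Mathlib.Topology.Algebra.InfiniteSum.Real
import Mathlib.Analysis.Complex.Cardinality
import Mathlib.Topology.Algebra.Module.Cardinality
import Mathlib.Tactic

/-!
The composition of two indestructible Blaschke products is an indestructible Blaschke product.
-/

namespace Pool.Agent.Q164.WD.Composition

open Complex Metric Filter Topology
open scoped ComplexConjugate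

/-- The Blaschke factor `(|a|/a) (a - z)/(1 - ā z)` of a nonzero point `a` of the disc. -/
noncomputable def factor (a z : ℂ) : ℂ := (‖a‖ : ℂ) / a * ((a - z) / (1 - conj a * z))

/-- `B` is (on the unit disc) a Blaschke product: nonconstant and of the form
`e^{iθ} z^m ∏ factor (a i) z` over a finite or countable family of nonzero points of the disc with
`∑ (1 - |a i|) < ∞`. -/
def IsBlaschke (B : ℂ → ℂ) : Prop :=
  (∃ z ∈ ball (0 : ℂ) 1, ∃ w ∈ ball (0 : ℂ) 1, B z ≠ B w) ∧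
  ∃ (θ : ℝ) (m : ℕ) (ι : Type) (a : ι → ℂ), Countable ι ∧
    (∀ i, a i ≠ 0 ∧ ‖a i‖ < 1) ∧ (Summable fun i => 1 - ‖a i‖) ∧
    ∀ z ∈ ball (0 : ℂ) 1, B z = exp (θ * I) * z ^ m * ∏' i, factor (a i) z

/-- The conformal automorphism `w ↦ e^{iφ} (w - a)/(1 - ā w)` of the disc. -/
noncomputable def aut (φ : ℝ) (a w : ℂ) : ℂ := exp (φ * I) * ((w - a) / (1 - conj a * w))

/-- `B` is an indestructible Blaschke product. -/
def Indestructible (B : ℂ → ℂ) : Prop :=
  IsBlaschke B ∧ ∀ (φ : ℝ) (a : ℂ), ‖a‖ < 1 → IsBlaschke (aut φ a ∘ B)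

/-! ### The factors -/

/-- The factor with the convention `G 0 z = z`. -/
noncomputable def G (a z : ℂ) : ℂ := if a = 0 then z else factor a z

theorem den_lower {a z : ℂ} (ha : ‖a‖ < 1) : 1 - ‖z‖ ≤ ‖1 - conj a * z‖ := by
  have h1 := norm_sub_norm_le (1 : ℂ) (conj a * z)
  rw [norm_one, norm_mul, Complex.norm_conj] at h1
  nlinarith [norm_nonneg z]

theorem den_upper {a z : ℂ} (ha : ‖a‖ < 1) (hz : ‖z‖ < 1) : ‖1 - conj a * z‖ ≤ 2 := by
  have h1 := norm_sub_le (1 : ℂ) (conj a * z)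
  rw [norm_one, norm_mul, Complex.norm_conj] at h1
  nlinarith [norm_nonneg z, norm_nonneg a]

theorem den_ne {a z : ℂ} (ha : ‖a‖ < 1) (hz : ‖z‖ < 1) : 1 - conj a * z ≠ 0 := by
  rw [← norm_pos_iff]
  have := den_lower (z := z) ha
  linarith

theorem key (a z : ℂ) :
    ‖1 - conj a * z‖ ^ 2 - ‖a - z‖ ^ 2 = (1 - ‖a‖ ^ 2) * (1 - ‖z‖ ^ 2) := by
  rw [← normSq_eq_norm_sq, ← normSq_eq_norm_sq, ← normSq_eq_norm_sq, ← normSq_eq_norm_sq]
  simp only [normSq_apply, sub_re, sub_im, mul_re, mul_im, one_re, one_im, conj_re, conj_im]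
  ring

theorem norm_factor {a z : ℂ} (ha0 : a ≠ 0) : ‖factor a z‖ = ‖a - z‖ / ‖1 - conj a * z‖ := by
  rw [factor, norm_mul, norm_div, norm_div, Complex.norm_real, norm_norm,
    div_self (norm_ne_zero_iff.2 ha0), one_mul]

theorem G_sq {a z : ℂ} (ha : ‖a‖ < 1) (hz : ‖z‖ < 1) :
    ‖G a z‖ ^ 2 = 1 - (1 - ‖a‖ ^ 2) * (1 - ‖z‖ ^ 2) / ‖1 - conj a * z‖ ^ 2 := by
  unfold G
  split_ifs with h
  · rw [h]
    simp
  · rw [norm_factor h, ← key, div_pow]
    have := norm_ne_zero_iff.2 (den_ne ha hz)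
    rw [eq_sub_iff_add_eq, ← add_div, add_sub_cancel, div_self (pow_ne_zero 2 this)]

theorem G_lower {a z : ℂ} (ha : ‖a‖ < 1) (hz : ‖z‖ < 1) :
    (1 - ‖a‖) * ((1 - ‖z‖ ^ 2) / 8) ≤ 1 - ‖G a z‖ := by
  have h1 := G_sq ha hz
  have h2 := den_upper ha hz
  have h3 : 0 < ‖1 - conj a * z‖ := norm_pos_iff.2 (den_ne ha hz)
  have ha0 := norm_nonneg a
  have hz0 := norm_nonneg z
  have hA : 0 < 1 - ‖a‖ ^ 2 := by nlinarith
  have hZ : 0 < 1 - ‖z‖ ^ 2 := by nlinarith
  have h4 : (1 - ‖a‖ ^ 2) * (1 - ‖z‖ ^ 2) / 4 ≤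
      (1 - ‖a‖ ^ 2) * (1 - ‖z‖ ^ 2) / ‖1 - conj a * z‖ ^ 2 := by
    apply div_le_div_of_nonneg_left (by positivity) (by positivity)
    nlinarith
  have h5 : ‖G a z‖ ^ 2 ≤ 1 - (1 - ‖a‖ ^ 2) * (1 - ‖z‖ ^ 2) / 4 := by linarith
  have hG0 := norm_nonneg (G a z)
  have h6 : ‖G a z‖ ^ 2 ≤ 1 := by
    have := mul_pos hA hZ
    linarith
  have h7 : ‖G a z‖ ≤ 1 := by nlinarith
  have h8 : (1 - ‖a‖) * (1 - ‖z‖ ^ 2) ≤ (1 - ‖a‖ ^ 2) * (1 - ‖z‖ ^ 2) := by
    apply mul_le_mul_of_nonneg_right _ hZ.le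
    nlinarith
  nlinarith

theorem G_lt_one {a z : ℂ} (ha : ‖a‖ < 1) (hz : ‖z‖ < 1) : ‖G a z‖ < 1 := by
  have h := G_lower ha hz
  have hz0 := norm_nonneg z
  have : 0 < (1 - ‖a‖) * ((1 - ‖z‖ ^ 2) / 8) := by
    apply mul_pos (by linarith)
    have : 0 < 1 - ‖z‖ ^ 2 := by nlinarith
    linarith
  linarith

theorem G_near_one {a z : ℂ} (ha : ‖a‖ < 1) (hz : ‖z‖ < 1) :
    ‖G a z - 1‖ ≤ 2 / (1 - ‖z‖) * (1 - ‖a‖) := by
  have hz1 : 0 < 1 - ‖z‖ := by linarith
  unfold G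
  split_ifs with h
  · rw [h, norm_zero, sub_zero, mul_one]
    have h1 : ‖z - 1‖ ≤ 2 := by
      have := norm_sub_le z 1
      rw [norm_one] at this
      linarith
    refine h1.trans ?_
    rw [le_div_iff₀ hz1]
    nlinarith [norm_nonneg z]
  · have hd := den_ne ha hz
    have hn : (‖a‖ : ℂ) * ‖a‖ = a * conj a := by
      rw [mul_conj, normSq_eq_norm_sq]
      push_cast
      ring
    have h1 : factor a z - 1 = -((1 - (‖a‖ : ℂ)) * ((a + ‖a‖ * z) / (a * (1 - conj a * z)))) := by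
      rw [factor]
      generalize hd' : 1 - conj a * z = d at *
      field_simp
      linear_combination (-z) * hn + a * hd'
    rw [h1, norm_neg, norm_mul]
    have h2 : ‖(1 : ℂ) - (‖a‖ : ℂ)‖ = 1 - ‖a‖ := by
      have : (1 : ℂ) - (‖a‖ : ℂ) = ((1 - ‖a‖ : ℝ) : ℂ) := by push_cast; ring
      rw [this, Complex.norm_real, Real.norm_eq_abs, abs_of_pos (by linarith)]
    rw [h2, mul_comm]
    apply mul_le_mul_of_nonneg_right _ (by linarith)
    rw [norm_div, norm_mul]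
    have ha0 : 0 < ‖a‖ := norm_pos_iff.2 h
    have h3 : ‖a + ‖a‖ * z‖ ≤ ‖a‖ * 2 := by
      refine (norm_add_le _ _).trans ?_
      rw [norm_mul, Complex.norm_real, norm_norm]
      nlinarith
    have h4 : ‖a‖ * (1 - ‖z‖) ≤ ‖a‖ * ‖1 - conj a * z‖ :=
      mul_le_mul_of_nonneg_left (den_lower ha) ha0.le
    calc ‖a + ‖a‖ * z‖ / (‖a‖ * ‖1 - conj a * z‖) ≤ (‖a‖ * 2) / (‖a‖ * (1 - ‖z‖)) := by
          apply div_le_div₀ (by positivity) h3 (by positivity) h4
      _ = 2 / (1 - ‖z‖) := by field_simp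

theorem G_eq_zero {a z : ℂ} (ha : ‖a‖ < 1) (hz : ‖z‖ < 1) : G a z = 0 ↔ z = a := by
  unfold G
  split_ifs with h
  · rw [h]
  · rw [factor, mul_eq_zero, div_eq_zero_iff, div_eq_zero_iff]
    constructor
    · rintro ((h1 | h1) | (h1 | h1))
      · exfalso
        apply h
        have : (‖a‖ : ℝ) = 0 := by exact_mod_cast h1
        exact norm_eq_zero.1 this
      · exact absurd h1 h
      · exact (sub_eq_zero.1 h1).symm
      · exact absurd h1 (den_ne ha hz)
    · intro h1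
      right
      left
      rw [h1, sub_self]

/-! ### Infinite products of factors -/

section
variable {ι : Type} {a : ι → ℂ} (ha : ∀ i, ‖a i‖ < 1) (hs : Summable fun i => 1 - ‖a i‖)
include ha hs

theorem G_summable {z : ℂ} (hz : ‖z‖ < 1) : Summable fun i => ‖G (a i) z - 1‖ :=
  Summable.of_nonneg_of_le (fun _ => norm_nonneg _) (fun i => G_near_one (ha i) hz)
    (hs.mul_left _)

theorem G_hasProd {z : ℂ} (hz : ‖z‖ < 1) :
    HasProd (fun i => G (a i) z) (∏' i, G (a i) z) := by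
  have := multipliable_one_add_of_summable (G_summable ha hs hz)
  simp only [add_sub_cancel] at this
  exact this.hasProd

theorem G_tprod_ne_zero {z : ℂ} (hz : ‖z‖ < 1) (h : ∀ i, z ≠ a i) : ∏' i, G (a i) z ≠ 0 := by
  have := tprod_one_add_ne_zero_of_summable (f := fun i => G (a i) z - 1) (by
    intro i
    rw [add_sub_cancel]
    intro h0
    exact h i ((G_eq_zero (ha i) hz).1 h0)) (G_summable ha hs hz)
  simpa only [add_sub_cancel] using this

end

theorem norm_le_prod {ι : Type} {f : ι → ℂ} {b : ℂ} (hf : HasProd f b) (h1 : ∀ i, ‖f i‖ ≤ 1)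
    (S : Finset ι) : ‖b‖ ≤ ∏ i ∈ S, ‖f i‖ := by
  classical
  have h2 : Tendsto (fun T : Finset ι => ‖∏ i ∈ T, f i‖) atTop (𝓝 ‖b‖) := by
    exact (continuous_norm.tendsto b).comp hf
  apply le_of_tendsto h2
  filter_upwards [eventually_ge_atTop S] with T hT
  rw [norm_prod, ← Finset.prod_sdiff hT]
  have h3 : ∏ i ∈ T \ S, ‖f i‖ ≤ 1 := Finset.prod_le_one (fun _ _ => norm_nonneg _) fun i _ => h1 i
  have h4 : 0 ≤ ∏ i ∈ S, ‖f i‖ := Finset.prod_nonneg fun _ _ => norm_nonneg _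
  calc (∏ i ∈ T \ S, ‖f i‖) * ∏ i ∈ S, ‖f i‖ ≤ 1 * ∏ i ∈ S, ‖f i‖ :=
        mul_le_mul_of_nonneg_right h3 h4
    _ = _ := one_mul _

theorem ne_zero_of_hasProd {ι : Type} {f : ι → ℂ} {b : ℂ} (hf : HasProd f b)
    (h1 : ∀ i, ‖f i‖ ≤ 1) (hb : b ≠ 0) (i : ι) : f i ≠ 0 := by
  have := norm_le_prod hf h1 {i}
  rw [Finset.prod_singleton] at this
  rw [← norm_pos_iff]
  exact (norm_pos_iff.2 hb).trans_le this

theorem log_bound {ι : Type} {f : ι → ℂ} {b : ℂ} (hf : HasProd f b) (h1 : ∀ i, ‖f i‖ ≤ 1)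
    (hb : b ≠ 0) (S : Finset ι) : ∑ i ∈ S, -Real.log ‖f i‖ ≤ -Real.log ‖b‖ := by
  rw [Finset.sum_neg_distrib, neg_le_neg_iff]
  rw [← Real.log_prod (fun i _ => norm_ne_zero_iff.2 (ne_zero_of_hasProd hf h1 hb i))]
  exact Real.log_le_log (norm_pos_iff.2 hb) (norm_le_prod hf h1 S)

/-! ### Forms -/

/-- The Blaschke form, with possibly vanishing points. -/
def Form (B : ℂ → ℂ) : Prop :=
  ∃ (θ : ℝ) (ι : Type) (a : ι → ℂ), Countable ι ∧
    (∀ i, ‖a i‖ < 1) ∧ (Summable fun i => 1 - ‖a i‖) ∧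
    ∀ z ∈ ball (0 : ℂ) 1, B z = exp (θ * I) * ∏' i, G (a i) z

theorem norm_unit (θ : ℝ) : ‖exp ((θ : ℂ) * I)‖ = 1 := Complex.norm_exp_ofReal_mul_I θ

theorem Form.norm_le {B : ℂ → ℂ} (h : Form B) {z : ℂ} (hz : z ∈ ball (0 : ℂ) 1) : ‖B z‖ ≤ 1 := by
  obtain ⟨θ, ι, a, -, ha, hs, hrep⟩ := h
  have hz' := mem_ball_zero_iff.1 hz
  rw [hrep z hz, norm_mul, norm_unit, one_mul]
  simpa using norm_le_prod (G_hasProd ha hs hz') (fun i => (G_lt_one (ha i) hz').le) ∅

theorem toForm {B : ℂ → ℂ} (hB : IsBlaschke B) :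
    ∃ (θ : ℝ) (ι : Type) (a : ι → ℂ), Nonempty ι ∧ Countable ι ∧
    (∀ i, ‖a i‖ < 1) ∧ (Summable fun i => 1 - ‖a i‖) ∧
    ∀ z ∈ ball (0 : ℂ) 1, B z = exp (θ * I) * ∏' i, G (a i) z := by
  obtain ⟨⟨z₁, hz₁, z₂, hz₂, hne⟩, θ, m, ι, a, hc, ha, hs, hrep⟩ := hB
  set a' : Fin m ⊕ ι → ℂ := Sum.elim (fun _ => 0) a with ha'
  have h1 : ∀ i, ‖a' i‖ < 1 := by
    rintro (i | i)
    · simp [ha']
    · simpa [ha'] using (ha i).2
  have h2 : Summable fun i => 1 - ‖a' i‖ := by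
    have e1 : HasSum ((fun i => 1 - ‖a' i‖) ∘ Sum.inl) _ := hasSum_fintype _
    have e2 : HasSum ((fun i => 1 - ‖a' i‖) ∘ Sum.inr) (∑' i, (1 - ‖a i‖)) := by
      simpa [ha', Function.comp_def] using hs.hasSum
    exact (e1.sum e2).summable
  have h3 : ∀ z ∈ ball (0 : ℂ) 1, B z = exp (θ * I) * ∏' i, G (a' i) z := by
    intro z hz
    rw [hrep z hz, mul_assoc]
    congr 1
    have hz' := mem_ball_zero_iff.1 hz
    have e1 : HasProd ((fun i => G (a' i) z) ∘ Sum.inl) (z ^ m) := by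
      have := hasProd_fintype (fun _ : Fin m => z)
      simp only [Finset.prod_const, Finset.card_univ, Fintype.card_fin] at this
      refine this.congr_fun ?_
      intro i
      simp [ha', G]
    have e2 : HasProd ((fun i => G (a' i) z) ∘ Sum.inr) (∏' i, factor (a i) z) := by
      have := G_hasProd (fun i => (ha i).2) hs hz'
      have e : (fun i => G (a i) z) = fun i => factor (a i) z := by
        funext i
        rw [G, if_neg (ha i).1]
      rw [e] at this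
      refine this.congr_fun ?_
      intro i
      simp only [ha', Function.comp, Sum.elim_inr]
      rw [G, if_neg (ha i).1]
    exact (e1.sum e2).tprod_eq.symm
  refine ⟨θ, Fin m ⊕ ι, a', ?_, inferInstance, h1, h2, h3⟩
  by_contra hemp
  rw [not_nonempty_iff] at hemp
  apply hne
  rw [h3 z₁ hz₁, h3 z₂ hz₂, tprod_empty, tprod_empty]

theorem IsBlaschke.form {B : ℂ → ℂ} (hB : IsBlaschke B) : Form B := by
  obtain ⟨θ, ι, a, -, h⟩ := toForm hB
  exact ⟨θ, ι, a, h⟩

theorem ofForm {B : ℂ → ℂ} (hB : Form B)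
    (hne : ∃ z ∈ ball (0 : ℂ) 1, ∃ w ∈ ball (0 : ℂ) 1, B z ≠ B w) : IsBlaschke B := by
  classical
  refine ⟨hne, ?_⟩
  obtain ⟨θ, ι, a, hc, ha, hs, hrep⟩ := hB
  have hfin : {i | a i = 0}.Finite := by
    have h1 := hs.tendsto_cofinite_zero.eventually_lt_const (show (0 : ℝ) < 1 by norm_num)
    rw [Filter.eventually_cofinite] at h1
    refine h1.subset ?_
    intro i hi
    simp only [Set.mem_ofPred_eq] at hi ⊢
    rw [hi]
    simp
  have : Fintype {i // a i = 0} := hfin.fintype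
  refine ⟨θ, Fintype.card {i // a i = 0}, {i // ¬ a i = 0}, fun i => a i, inferInstance,
    fun i => ⟨i.2, ha i⟩, ?_, ?_⟩
  · exact hs.comp_injective Subtype.val_injective
  · intro z hz
    have hz' := mem_ball_zero_iff.1 hz
    rw [hrep z hz, mul_assoc]
    congr 1
    rw [← (Equiv.sumCompl fun i => a i = 0).tprod_eq]
    apply HasProd.tprod_eq
    apply HasProd.sum
    · have := hasProd_fintype (fun _ : {i // a i = 0} => z)
      simp only [Finset.prod_const, Finset.card_univ] at this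
      refine this.congr_fun ?_
      rintro ⟨i, hi⟩
      simp [G, hi]
    · have := G_hasProd (a := fun i : {i // ¬ a i = 0} => a i) (fun i => ha i)
        (hs.comp_injective Subtype.val_injective) hz'
      have e : (fun i : {i // ¬ a i = 0} => G (a i.1) z) = fun i => factor (a i.1) z := by
        funext i
        rw [G, if_neg i.2]
      rw [e] at this
      refine this.congr_fun ?_
      rintro ⟨i, hi⟩
      simp [G, hi]

theorem IsBlaschke.mem_ball {B : ℂ → ℂ} (hB : IsBlaschke B) {z : ℂ} (hz : z ∈ ball (0 : ℂ) 1) :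
    B z ∈ ball (0 : ℂ) 1 := by
  obtain ⟨θ, ι, a, ⟨i₀⟩, -, ha, hs, hrep⟩ := toForm hB
  have hz' := mem_ball_zero_iff.1 hz
  rw [mem_ball_zero_iff, hrep z hz, norm_mul, norm_unit, one_mul]
  have := norm_le_prod (G_hasProd ha hs hz') (fun i => (G_lt_one (ha i) hz').le) {i₀}
  rw [Finset.prod_singleton] at this
  exact this.trans_lt (G_lt_one (ha i₀) hz')

/-! ### Countable products of Blaschke forms -/

theorem form_prod {κ : Type} [Countable κ] {Bk : κ → ℂ → ℂ} {g : ℂ → ℂ}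
    (hB : ∀ k, Form (Bk k)) (hg : ∀ z ∈ ball (0 : ℂ) 1, HasProd (fun k => Bk k z) (g z))
    {zs : ℂ} (hzs : zs ∈ ball (0 : ℂ) 1) (hne : g zs ≠ 0) : Form g := by
  classical
  have hle : ∀ k, ∀ z ∈ ball (0 : ℂ) 1, ‖Bk k z‖ ≤ 1 := fun k z hz => (hB k).norm_le hz
  choose θ ι a hc ha hs hrep using hB
  have hzs' := mem_ball_zero_iff.1 hzs
  set q : κ → ℂ → ℂ := fun k z => ∏' i, G (a k i) z with hq
  have hq1 : ∀ k z, z ∈ ball (0 : ℂ) 1 → HasProd (fun i => G (a k i) z) (q k z) :=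
    fun k z hz => G_hasProd (ha k) (hs k) (mem_ball_zero_iff.1 hz)
  have hBq : ∀ k z, z ∈ ball (0 : ℂ) 1 → ‖Bk k z‖ = ‖q k z‖ := by
    intro k z hz
    rw [hrep k z hz, norm_mul, norm_unit, one_mul]
  have hqne : ∀ k, q k zs ≠ 0 := by
    intro k
    rw [← norm_ne_zero_iff, ← hBq k zs hzs, norm_ne_zero_iff]
    exact ne_zero_of_hasProd (hg zs hzs) (fun k => hle k zs hzs) hne k
  -- the index type
  set c : (Σ k, ι k) → ℂ := fun p => a p.1 p.2 with hcdef
  have hc1 : ∀ p, ‖c p‖ < 1 := fun p => ha p.1 p.2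
  set K : ℝ := (1 - ‖zs‖ ^ 2) / 8 with hK
  have hKpos : 0 < K := by
    have := norm_nonneg zs
    rw [hK]
    have : 0 < 1 - ‖zs‖ ^ 2 := by nlinarith
    linarith
  have hcs : Summable fun p => 1 - ‖c p‖ := by
    rw [summable_sigma_of_nonneg (fun p => by linarith [hc1 p])]
    refine ⟨fun k => hs k, ?_⟩
    have hk : ∀ k, ∑' i, (1 - ‖a k i‖) ≤ 1 / K * (-Real.log ‖Bk k zs‖) := by
      intro k
      apply (hs k).tsum_le_of_sum_le
      intro S
      have h1 := log_bound (hq1 k zs hzs) (fun i => (G_lt_one (ha k i) hzs').le) (hqne k) S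
      rw [hBq k zs hzs]
      have h2 : ∑ i ∈ S, (1 - ‖a k i‖) ≤ 1 / K * ∑ i ∈ S, -Real.log ‖G (a k i) zs‖ := by
        rw [Finset.mul_sum]
        apply Finset.sum_le_sum
        intro i _
        have h3 := G_lower (ha k i) hzs'
        have h4 : G (a k i) zs ≠ 0 :=
          ne_zero_of_hasProd (hq1 k zs hzs) (fun i => (G_lt_one (ha k i) hzs').le) (hqne k) i
        have h5 := Real.log_le_sub_one_of_pos (norm_pos_iff.2 h4)
        rw [one_div, inv_mul_eq_div, le_div_iff₀ hKpos]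
        rw [← hK] at h3
        linarith
      refine h2.trans ?_
      exact mul_le_mul_of_nonneg_left h1 (by positivity)
    apply summable_of_sum_le (c := 1 / K * (-Real.log ‖g zs‖))
    · intro k
      exact tsum_nonneg fun i => by linarith [ha k i]
    · intro N
      calc ∑ k ∈ N, ∑' i, (1 - ‖a k i‖) ≤ ∑ k ∈ N, 1 / K * (-Real.log ‖Bk k zs‖) :=
            Finset.sum_le_sum fun k _ => hk k
        _ = 1 / K * ∑ k ∈ N, -Real.log ‖Bk k zs‖ := by rw [Finset.mul_sum]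
        _ ≤ 1 / K * (-Real.log ‖g zs‖) :=
            mul_le_mul_of_nonneg_left
              (log_bound (hg zs hzs) (fun k => hle k zs hzs) hne N) (by positivity)
  set P : ℂ → ℂ := fun z => ∏' p, G (c p) z with hP
  have hP1 : ∀ z ∈ ball (0 : ℂ) 1, HasProd (fun k => q k z) (P z) := by
    intro z hz
    exact (G_hasProd hc1 hcs (mem_ball_zero_iff.1 hz)).sigma fun k => hq1 k z hz
  have hprod : ∀ z ∈ ball (0 : ℂ) 1, ∀ N : Finset κ,
      ∏ k ∈ N, Bk k z = (∏ k ∈ N, exp ((θ k : ℂ) * I)) * ∏ k ∈ N, q k z := by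
    intro z hz N
    rw [← Finset.prod_mul_distrib]
    exact Finset.prod_congr rfl fun k _ => hrep k z hz
  have hgz : ∀ z ∈ ball (0 : ℂ) 1, Tendsto (fun N : Finset κ => ∏ k ∈ N, Bk k z) atTop (𝓝 (g z)) :=
    fun z hz => hg z hz
  have hPz : ∀ z ∈ ball (0 : ℂ) 1, Tendsto (fun N : Finset κ => ∏ k ∈ N, q k z) atTop (𝓝 (P z)) :=
    fun z hz => hP1 z hz
  have hu1 : ∀ N : Finset κ, ‖∏ k ∈ N, exp ((θ k : ℂ) * I)‖ = 1 := by
    intro N
    rw [norm_prod]
    exact Finset.prod_eq_one fun k _ => norm_unit _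
  have hnorm : ‖g zs‖ = ‖P zs‖ := by
    have h1 := (hgz zs hzs).norm
    have h2 := (hPz zs hzs).norm
    refine tendsto_nhds_unique h1 (h2.congr fun N => ?_)
    rw [hprod zs hzs N, norm_mul, hu1, one_mul]
  have hPne : P zs ≠ 0 := by
    rw [← norm_ne_zero_iff, ← hnorm]
    exact norm_ne_zero_iff.2 hne
  set lam : ℂ := g zs / P zs with hlam
  have hlim : Tendsto (fun N : Finset κ => ∏ k ∈ N, exp ((θ k : ℂ) * I)) atTop (𝓝 lam) := by
    refine ((hgz zs hzs).div (hPz zs hzs) hPne).congr fun N => ?_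
    show (∏ k ∈ N, Bk k zs) / (∏ k ∈ N, q k zs) = _
    rw [hprod zs hzs N, mul_div_cancel_right₀]
    exact Finset.prod_ne_zero_iff.2 fun k _ => hqne k
  have hlam1 : ‖lam‖ = 1 := by
    rw [hlam, norm_div, hnorm, div_self]
    exact norm_ne_zero_iff.2 hPne
  refine ⟨lam.arg, _, c, inferInstance, hc1, hcs, fun z hz => ?_⟩
  have h1 : exp ((lam.arg : ℂ) * I) = lam := by
    have := Complex.norm_mul_exp_arg_mul_I lam
    rwa [hlam1, ofReal_one, one_mul] at this
  rw [h1]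
  have h2 := (hlim.mul (hPz z hz)).congr fun N => (hprod z hz N).symm
  exact tendsto_nhds_unique (hgz z hz) h2

/-! ### Composition -/

theorem ball_uncountable : ¬ (ball (0 : ℂ) 1).Countable := by
  intro h
  have hne : (ball (0 : ℂ) 1).Nonempty := ⟨0, mem_ball_self one_pos⟩
  have h1 := continuum_le_cardinal_of_isOpen ℂ isOpen_ball hne
  have h2 := Set.Countable.le_aleph0 h
  exact absurd Cardinal.aleph0_lt_continuum (not_lt.2 (h1.trans h2))

theorem comp_blaschke {B C : ℂ → ℂ} (hB : IsBlaschke B) (hC : Indestructible C) :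
    IsBlaschke (B ∘ C) := by
  classical
  obtain ⟨θ, ι, a, ⟨i₀⟩, hc, ha, hs, hrep⟩ := toForm hB
  have hCb : ∀ z ∈ ball (0 : ℂ) 1, C z ∈ ball (0 : ℂ) 1 := fun z hz => hC.1.mem_ball hz
  -- the preimage of a point is countable, and nonempty
  have hpre : ∀ b : ℂ, ‖b‖ < 1 → {z | z ∈ ball (0 : ℂ) 1 ∧ C z = b}.Countable ∧
      ∃ z ∈ ball (0 : ℂ) 1, C z = b := by
    intro b hb
    obtain ⟨θ', ι', a', ⟨j₀⟩, hc', ha', hs', hrep'⟩ := toForm (hC.2 0 b hb)
    constructor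
    · refine (Set.countable_range a').mono ?_
      rintro z ⟨hz, hCz⟩
      by_contra hcon
      have h1 : ∀ j, z ≠ a' j := by
        intro j hj
        exact hcon ⟨j, hj.symm⟩
      have h2 := G_tprod_ne_zero ha' hs' (mem_ball_zero_iff.1 hz) h1
      have h3 := hrep' z hz
      have h4 : (aut 0 b ∘ C) z = 0 := by
        simp [aut, hCz]
      rw [h4] at h3
      have h5 := mul_ne_zero (exp_ne_zero ((θ' : ℂ) * I)) h2
      exact h5 h3.symm
    · have hz : a' j₀ ∈ ball (0 : ℂ) 1 := mem_ball_zero_iff.2 (ha' j₀)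
      refine ⟨a' j₀, hz, ?_⟩
      have h1 := hrep' _ hz
      have h2 : ∏' i, G (a' i) (a' j₀) = 0 := by
        rw [← norm_le_zero_iff]
        have := norm_le_prod (G_hasProd ha' hs' (ha' j₀))
          (fun i => (G_lt_one (ha' i) (ha' j₀)).le) {j₀}
        rw [Finset.prod_singleton, (G_eq_zero (ha' j₀) (ha' j₀)).2 rfl, norm_zero] at this
        exact this
      rw [h2, mul_zero] at h1
      have h3 : exp (((0 : ℝ) : ℂ) * I) * ((C (a' j₀) - b) / (1 - conj b * C (a' j₀))) = 0 := h1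
      rw [mul_eq_zero, div_eq_zero_iff] at h3
      rcases h3 with h3 | h3 | h3
      · exact absurd h3 (exp_ne_zero _)
      · exact sub_eq_zero.1 h3
      · exact absurd h3 (den_ne hb (mem_ball_zero_iff.1 (hCb _ hz)))
  -- a point where `B ∘ C` does not vanish
  obtain ⟨zs, hzs, hzs2⟩ : ∃ zs ∈ ball (0 : ℂ) 1, ∀ i, C zs ≠ a i := by
    by_contra hcon
    push Not at hcon
    apply ball_uncountable
    have h1 : ball (0 : ℂ) 1 ⊆ ⋃ i, {z | z ∈ ball (0 : ℂ) 1 ∧ C z = a i} := by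
      intro z hz
      obtain ⟨i, hi⟩ := hcon z hz
      exact Set.mem_iUnion.2 ⟨i, hz, hi⟩
    exact (Set.countable_iUnion fun i => (hpre (a i) (ha i)).1).mono h1
  set g : ℂ → ℂ := fun z => ∏' i, G (a i) (C z) with hg
  have hgz : g zs ≠ 0 := G_tprod_ne_zero ha hs (mem_ball_zero_iff.1 (hCb zs hzs)) hzs2
  have hgform : Form g := by
    apply form_prod (Bk := fun i z => G (a i) (C z)) _ _ hzs hgz
    · intro i
      by_cases h0 : a i = 0
      · have e : (fun z => G (a i) (C z)) = C := by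
          funext z
          rw [G, if_pos h0]
        rw [e]
        exact hC.1.form
      · set u : ℂ := -((‖a i‖ : ℂ) / a i) with hu
        have hu1 : ‖u‖ = 1 := by
          rw [hu, norm_neg, norm_div, Complex.norm_real, norm_norm,
            div_self (norm_ne_zero_iff.2 h0)]
        have h1 : exp ((u.arg : ℂ) * I) = u := by
          have := Complex.norm_mul_exp_arg_mul_I u
          rwa [hu1, ofReal_one, one_mul] at this
        have e : (fun z => G (a i) (C z)) = aut u.arg (a i) ∘ C := by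
          funext z
          rw [G, if_neg h0]
          show factor (a i) (C z) = aut u.arg (a i) (C z)
          rw [aut, h1, factor, hu, ← neg_sub (C z) (a i), neg_div]
          ring
        rw [e]
        exact (hC.2 _ _ (ha i)).form
    · intro z hz
      exact G_hasProd ha hs (mem_ball_zero_iff.1 (hCb z hz))
  have hform : Form (B ∘ C) := by
    obtain ⟨θ', ι', a', hc', ha', hs', hrep'⟩ := hgform
    refine ⟨θ + θ', ι', a', hc', ha', hs', fun z hz => ?_⟩
    show B (C z) = _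
    rw [hrep (C z) (hCb z hz)]
    have h1 : ∏' i, G (a i) (C z) = g z := rfl
    rw [h1, hrep' z hz, ← mul_assoc, ← Complex.exp_add]
    congr 2
    push_cast
    ring
  apply ofForm hform
  obtain ⟨z₀, hz₀, hCz₀⟩ := (hpre (a i₀) (ha i₀)).2
  refine ⟨z₀, hz₀, zs, hzs, ?_⟩
  show B (C z₀) ≠ B (C zs)
  rw [hrep _ (hCb z₀ hz₀), hrep _ (hCb zs hzs)]
  have h1 : ∏' i, G (a i) (C z₀) = 0 := by
    rw [← norm_le_zero_iff]
    have hw := mem_ball_zero_iff.1 (hCb z₀ hz₀)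
    have := norm_le_prod (G_hasProd ha hs hw) (fun i => (G_lt_one (ha i) hw).le) {i₀}
    rw [Finset.prod_singleton, (G_eq_zero (ha i₀) hw).2 hCz₀, norm_zero] at this
    exact this
  rw [h1, mul_zero]
  exact (mul_ne_zero (exp_ne_zero _) hgz).symm

/-- If `B` and `C` are indestructible Blaschke products, then so is `B ∘ C`. -/
theorem result : ∀ B C : ℂ → ℂ, Indestructible B → Indestructible C → Indestructible (B ∘ C) :=
  fun B _ hB hC =>
    ⟨comp_blaschke hB.1 hC, fun φ a ha => comp_blaschke (B := aut φ a ∘ B) (hB.2 φ a ha) hC⟩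

end Pool.Agent.Q164.WD.Composition
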