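import Mathlib
import Pool.Agent.Q164.W3.Ell

set_option autoImplicit false

namespace Pool.Agent.Q164.WD.IdealSquare

/-- The negation of the preceding statement: There is a closed two-sided ideal of codimension exactly 4 in the convolution algebra ℓ¹ of the free group on two generators such that the linear span of products of pairs of elements of the ideal is not the whole ideal. -/
theorem ideal_square :
    ¬ (∃ I : Submodule ℂ (lp (fun _ : FreeGroup (Fin 2) => ℂ) 1),
      IsClosed (I : Set (lp (fun _ : FreeGroup (Fin 2) => ℂ) 1)) ∧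
      (∀ a ∈ I, ∀ b c : lp (fun _ : FreeGroup (Fin 2) => ℂ) 1,
        (∀ x : FreeGroup (Fin 2),
          (c : FreeGroup (Fin 2) → ℂ) x
            = ∑' y : FreeGroup (Fin 2),
                (a : FreeGroup (Fin 2) → ℂ) y * (b : FreeGroup (Fin 2) → ℂ) (y⁻¹ * x)) →
        c ∈ I) ∧
      (∀ a ∈ I, ∀ b c : lp (fun _ : FreeGroup (Fin 2) => ℂ) 1,
        (∀ x : FreeGroup (Fin 2),
          (c : FreeGroup (Fin 2) → ℂ) x
            = ∑' y : FreeGroup (Fin 2),
                (b : FreeGroup (Fin 2) → ℂ) y * (a : FreeGroup (Fin 2) → ℂ) (y⁻¹ * x)) →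
        c ∈ I) ∧
      Module.finrank ℂ ((lp (fun _ : FreeGroup (Fin 2) => ℂ) 1) ⧸ I) = 4 ∧
      ∃ c ∈ I, c ∉ Submodule.span ℂ
        {d : lp (fun _ : FreeGroup (Fin 2) => ℂ) 1 |
          ∃ a ∈ I, ∃ b ∈ I, ∀ x : FreeGroup (Fin 2),
            (d : FreeGroup (Fin 2) → ℂ) x
              = ∑' y : FreeGroup (Fin 2),
                  (a : FreeGroup (Fin 2) → ℂ) y * (b : FreeGroup (Fin 2) → ℂ) (y⁻¹ * x)}) := by
  rintro ⟨I, hI, hr, hl, h4, c, hc, hcn⟩
  apply hcn
  have hfd : FiniteDimensional ℂ ((lp (fun _ : FreeGroup (Fin 2) => ℂ) 1) ⧸ I) := by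
    refine Module.finite_of_finrank_pos ?_
    rw [h4]; norm_num
  rw [Q164.W3.idem_ell I hI hr hl hfd]
  exact hc

end Pool.Agent.Q164.WD.IdealSquare
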