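import Mathlib
import Pool.Agent.Q164.Lac5

set_option autoImplicit false

namespace Pool.Agent.Q164.WD.LacunaryDense

/-- For every sequence of positive integers with n_{k+1} ≥ q n_k for some q>1, the set of x in [0,2π) at which the partial sums of cos(n_k x) come arbitrarily close to every real number infinitely often has Lebesgue measure 2π. -/
theorem lacunary_dense :
    ∀ (n : ℕ → ℕ) (q : ℝ), 1 < q → (∀ k, 0 < n k) →
      (∀ k, q * (n k : ℝ) ≤ (n (k + 1) : ℝ)) →
      MeasureTheory.volume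
        {x : ℝ | x ∈ Set.Ico 0 (2 * Real.pi) ∧
          ∀ ξ : ℝ, ∀ ε : ℝ, 0 < ε →
            ∃ᶠ m in Filter.atTop,
              |(∑ k ∈ Finset.range m, Real.cos ((n k : ℝ) * x)) - ξ| < ε}
        = ENNReal.ofReal (2 * Real.pi) := by
  intro n q hq hpos hn
  have hpi := Real.pi_pos
  have h := Pool.Agent.Q164.Lac.ae_dense hq hpos hn
  have hIco : MeasureTheory.volume (Set.Ico (0 : ℝ) (2 * Real.pi)) =
      ENNReal.ofReal (2 * Real.pi) := by
    rw [Real.volume_Ico, sub_zero]
  rw [← hIco]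
  apply MeasureTheory.measure_congr
  have h0 : ∀ᵐ x : ℝ, x ≠ 0 := by
    rw [MeasureTheory.ae_iff]
    simp
  filter_upwards [h, h0] with x hx hx0
  apply propext
  constructor
  · intro hm
    exact hm.1
  · intro hm
    have hm' : x ∈ Set.Ico (0 : ℝ) (2 * Real.pi) := hm
    refine ⟨hm', fun ξ ε hε => ?_⟩
    exact hx ⟨lt_of_le_of_ne hm'.1 (Ne.symm hx0), hm'.2.le⟩ ξ ε hε

end Pool.Agent.Q164.WD.LacunaryDense
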