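import Pool.Agent.Q164.Leg3

/-!
No cubic sequence is a Legendre multiplier sequence.
-/

namespace Pool.Agent.Q164.WD.NoCubic

open Polynomial Finset

/-- The Legendre polynomial `P_n = (2^n n!)⁻¹ D^n (x^2 - 1)^n`. -/
noncomputable def legendre (n : ℕ) : ℝ[X] :=
  C (1 / (2 ^ n * (n.factorial : ℝ))) * derivative^[n] ((X ^ 2 - 1) ^ n)

/-- All complex zeros are real; the zero polynomial is included. -/
def OnlyRealZeros (p : ℝ[X]) : Prop := p = 0 ∨ ∀ z : ℂ, aeval z p = 0 → z.im = 0

/-- For every cubic `q` there is a finite Legendre expansion with only real zeros whose image under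
the diagonal operator with eigenvalues `q(k)` is nonzero and has a non-real zero. -/
theorem result : ∀ q : ℝ[X], q.natDegree = 3 → ∃ (n : ℕ) (a : ℕ → ℝ),
    OnlyRealZeros (∑ k ∈ range (n + 1), C (a k) * legendre k) ∧
    (∑ k ∈ range (n + 1), C (a k * q.eval (k : ℝ)) * legendre k) ≠ 0 ∧
    ∃ z : ℂ, aeval z (∑ k ∈ range (n + 1), C (a k * q.eval (k : ℝ)) * legendre k) = 0 ∧
      z.im ≠ 0 := by
  intro q hq
  by_contra hcon
  have h : Pool.Agent.Q164.IsMS Pool.Agent.Q164.Leg.leg fun k => q.eval (k : ℝ) := by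
    intro n a ha
    by_contra hbad
    apply hcon
    refine ⟨n, a, ha, ?_⟩
    unfold Pool.Agent.Q164.Hyperbolic at hbad
    push Not at hbad
    exact hbad
  obtain ⟨E, hE⟩ := Pool.Agent.Q164.Leg.main q h
  have h2 : (X ^ 2 + X : ℝ[X]).natDegree = 2 := by compute_degree!
  rw [hE, natDegree_comp, h2] at hq
  omega

end Pool.Agent.Q164.WD.NoCubic
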